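import Pool.Agent.H82.EUC.Stmts

/-!
Row GLU of the board `euc`: gluing two stable matchings along a connected part.
-/

set_option autoImplicit false

namespace Pool.EUC

namespace GLUaux

theorem apart {A : Type} {dM dW : A → A → ℝ} {μ0 μ2 : Equiv.Perm A}
    (hW : WLe dW μ0 μ2) (hM : ∀ m, dM m (μ0 m) ≤ dM m (μ2 m))
    {C : Set A} (hC : ∀ m m', RR dM dW μ0 μ2 m m' → (m ∈ C ↔ m' ∈ C))
    {m m' : A} (h1 : m ∈ C) (h2 : m' ∉ C) : μ2 m ≠ μ0 m' := by
  intro h
  have hne : m ≠ m' := fun e => h2 (e ▸ h1)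
  have e2 : μ2.symm (μ2 m) = m := μ2.symm_apply_apply m
  have e0 : μ0.symm (μ2 m) = m' := by rw [h]; exact μ0.symm_apply_apply m'
  refine h2 ((hC m m' ⟨μ2 m, ⟨?_, ?_, le_rfl, ?_⟩, ?_, ?_, ?_, ?_⟩).1 h1)
  · intro e
    exact hne (μ0.injective (e.trans h))
  · rw [e2, e0]
    exact hne.symm
  · have := hW (μ2 m)
    rwa [e2] at this
  · intro e
    exact hne (μ2.injective (h.trans e))
  · rw [e2, e0]
    exact hne.symm
  · rw [h]
    exact hM m'
  · rw [e0]

end GLUaux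

theorem glu_thm (h1 : OPP_S) : GLU_S := by
  classical
  intro A _ dM dW hdM hdW μ0 μ2 s0 s2 hW C hC
  have hM : ∀ m, dM m (μ0 m) ≤ dM m (μ2 m) := h1 A dM dW hdM hdW μ0 μ2 s0 s2 hW
  have hK : ∀ {m m' : A}, m ∈ C → m' ∉ C → μ2 m ≠ μ0 m' := fun a b => GLUaux.apart hW hM hC a b
  have hinj : Function.Injective (fun m => if m ∈ C then μ2 m else μ0 m) := by
    intro m m' h
    by_cases hm : m ∈ C <;> by_cases hm' : m' ∈ C <;> simp only [hm, hm', if_true, if_false] at h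
    · exact μ2.injective h
    · exact absurd h (hK hm hm')
    · exact absurd h.symm (hK hm' hm)
    · exact μ0.injective h
  obtain ⟨ν, hν⟩ : ∃ ν : Equiv.Perm A, ∀ m, ν m = if m ∈ C then μ2 m else μ0 m :=
    ⟨Equiv.ofBijective _ (Finite.injective_iff_bijective.1 hinj), fun m => rfl⟩
  have v2 : ∀ m ∈ C, ν m = μ2 m := fun m hm => by rw [hν, if_pos hm]
  have v0 : ∀ m, m ∉ C → ν m = μ0 m := fun m hm => by rw [hν, if_neg hm]
  have w2 : ∀ w, ν.symm w ∈ C → ν.symm w = μ2.symm w := fun w hw => by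
    rw [Equiv.eq_symm_apply, ← v2 _ hw, Equiv.apply_symm_apply]
  have w0 : ∀ w, ν.symm w ∉ C → ν.symm w = μ0.symm w := fun w hw => by
    rw [Equiv.eq_symm_apply, ← v0 _ hw, Equiv.apply_symm_apply]
  refine ⟨ν, ?_, ?_, ?_, v2, v0⟩
  · rintro m w ⟨b1, b2⟩
    by_cases hm : m ∈ C
    · rw [v2 m hm] at b1
      by_cases hw : ν.symm w ∈ C
      · rw [w2 w hw] at b2
        exact s2 m w ⟨b1, b2⟩
      · rw [w0 w hw] at b2
        have hw' : μ0.symm w ∉ C := by rw [← w0 w hw]; exact hw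
        by_cases c1 : μ0.symm w = μ2.symm w
        · rw [c1] at b2
          exact s2 m w ⟨b1, b2⟩
        · by_cases c2 : μ0 m = μ2 m
          · rw [← c2] at b1
            exact s0 m w ⟨b1, b2⟩
          · refine hw' ((hC m (μ0.symm w) ⟨w, ⟨c2, c1, b1.le, b2.le⟩, ?_, c1, ?_, le_rfl⟩).1 hm)
            · intro e
              refine c1 ?_
              rw [Equiv.eq_symm_apply, ← e, Equiv.apply_symm_apply]
            · have := hM (μ0.symm w)
              rwa [Equiv.apply_symm_apply] at this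
    · rw [v0 m hm] at b1
      by_cases hw : ν.symm w ∈ C
      · rw [w2 w hw] at b2
        exact s0 m w ⟨b1, b2.trans_le (hW w)⟩
      · rw [w0 w hw] at b2
        exact s0 m w ⟨b1, b2⟩
  · intro w
    by_cases hw : ν.symm w ∈ C
    · rw [w2 w hw]
      exact hW w
    · rw [w0 w hw]
  · intro w
    by_cases hw : ν.symm w ∈ C
    · rw [w2 w hw]
    · rw [w0 w hw]
      exact hW w

end Pool.EUC
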